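import Pool.Agent.H27.RCS.Defs
import Pool.Agent.H27.RC.Defs

/-!
The radius of comparison of `Pool.Agent.H27.RCS` is at most that of `Pool.Agent.H27.RC`, across
`*`-isomorphisms.
-/

set_option autoImplicit false
set_option linter.unusedSectionVars false

open Filter Topology
open scoped ENNReal NNReal

noncomputable section

namespace Pool.Agent.H27.RCS

theorem rpowC_pow {B : Type} [CStarAlgebra B] [PartialOrder B] [StarOrderedRing B] (c : B)
    (hpos : 0 ≤ c) (k : ℕ) : RC.rpowC (c ^ (k + 1)) (1 / ((k + 1 : ℕ) : ℝ)) = c := by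
  have hk : (0 : ℝ) ≤ ((k + 1 : ℕ) : ℝ) := by positivity
  have hk' : (0 : ℝ) ≤ 1 / ((k + 1 : ℕ) : ℝ) := by positivity
  have hk1 : ((k + 1 : ℕ) : ℝ) * (1 / ((k + 1 : ℕ) : ℝ)) = 1 := by
    rw [mul_one_div]; exact div_self (by positivity)
  unfold RC.rpowC
  rw [← CFC.rpow_natCast c (k + 1) hpos,
    CFC.rpow_rpow_of_exponent_nonneg c _ _ hk hk' hpos, hk1, CFC.rpow_one c hpos]

section transfer

variable {A B : Type} [CStarAlgebra A] [CStarAlgebra B] [PartialOrder B] [StarOrderedRing B]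
  (Φ : A ≃⋆ₐ[ℂ] B)

/-- apply `Φ` to the entries -/
def toC {n : ℕ} (x : Matrix (Fin n) (Fin n) A) : CStarMatrix (Fin n) (Fin n) B :=
  CStarMatrix.ofMatrix fun i j => Φ (x i j)

/-- apply the inverse of `Φ` to the entries -/
def ofC {n : ℕ} (y : CStarMatrix (Fin n) (Fin n) B) : Matrix (Fin n) (Fin n) A :=
  Matrix.of fun i j => Φ.symm (y i j)

theorem ofC_toC {n : ℕ} (x : Matrix (Fin n) (Fin n) A) : ofC Φ (toC Φ x) = x := by
  ext i j
  simp [ofC, toC]

theorem toC_ofC {n : ℕ} (y : CStarMatrix (Fin n) (Fin n) B) : toC Φ (ofC Φ y) = y := by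
  ext i j
  simp [ofC, toC]

theorem toC_mul {n : ℕ} (x y : Matrix (Fin n) (Fin n) A) :
    toC Φ (x * y) = toC Φ x * toC Φ y := by
  ext i j
  simp [toC, Matrix.mul_apply, CStarMatrix.mul_apply, map_sum, map_mul]

theorem toC_star {n : ℕ} (x : Matrix (Fin n) (Fin n) A) : toC Φ (star x) = star (toC Φ x) := by
  ext i j
  simp [toC, CStarMatrix.star_apply, map_star]

theorem toC_add {n : ℕ} (x y : Matrix (Fin n) (Fin n) A) :
    toC Φ (x + y) = toC Φ x + toC Φ y := by
  ext i j
  simp [toC]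

theorem toC_smul {n : ℕ} (c : ℂ) (x : Matrix (Fin n) (Fin n) A) :
    toC Φ (c • x) = c • toC Φ x := by
  ext i j
  simp [toC]

theorem toC_one {n : ℕ} : toC Φ (1 : Matrix (Fin n) (Fin n) A) = 1 := by
  ext i j
  by_cases hij : i = j
  · subst hij; simp [toC]
  · simp [toC, hij]

theorem toC_pow {n : ℕ} (x : Matrix (Fin n) (Fin n) A) (k : ℕ) :
    toC Φ (x ^ k) = toC Φ x ^ k := by
  induction k with
  | zero => simp [toC_one]
  | succ k ih => rw [pow_succ, pow_succ, toC_mul, ih]

theorem ofC_mul {n : ℕ} (x y : CStarMatrix (Fin n) (Fin n) B) :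
    ofC Φ (x * y) = ofC Φ x * ofC Φ y := by
  rw [← ofC_toC Φ (ofC Φ x * ofC Φ y), toC_mul, toC_ofC, toC_ofC]

theorem ofC_star {n : ℕ} (x : CStarMatrix (Fin n) (Fin n) B) :
    ofC Φ (star x) = star (ofC Φ x) := by
  rw [← ofC_toC Φ (star (ofC Φ x)), toC_star, toC_ofC]

theorem ofC_add {n : ℕ} (x y : CStarMatrix (Fin n) (Fin n) B) :
    ofC Φ (x + y) = ofC Φ x + ofC Φ y := by
  rw [← ofC_toC Φ (ofC Φ x + ofC Φ y), toC_add, toC_ofC, toC_ofC]

theorem ofC_smul {n : ℕ} (c : ℂ) (x : CStarMatrix (Fin n) (Fin n) B) :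
    ofC Φ (c • x) = c • ofC Φ x := by
  rw [← ofC_toC Φ (c • ofC Φ x), toC_smul, toC_ofC]

theorem continuous_ofC {n : ℕ} :
    Continuous (ofC Φ : CStarMatrix (Fin n) (Fin n) B → Matrix (Fin n) (Fin n) A) := by
  have hc : Continuous Φ.symm := (StarAlgEquiv.isometry Φ.symm).continuous
  refine continuous_matrix fun i j => hc.comp ?_
  exact (continuous_apply_apply i j : Continuous fun y : Fin n → Fin n → B => y i j)

/-- A quasitrace of `B` gives one of `A`. -/
theorem isQuasiTrace_comp (τ : RC.QuasiTrace B) :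
    IsQuasiTrace (fun (n : ℕ) (x : Matrix (Fin n) (Fin n) A) => τ.toFun n (toC Φ x)) where
  nonneg n x := by
    have h := τ.nonneg n (toC Φ x)
    rw [← toC_star, ← toC_mul] at h
    exact h
  tracial n x := by
    have h := τ.tracial n (toC Φ x)
    rw [← toC_star, ← toC_mul, ← toC_mul] at h
    exact h
  add_I n a b ha hb := by
    have h := τ.add_I n (toC Φ a) (toC Φ b)
      (by rw [isSelfAdjoint_iff, ← toC_star, ha]) (by rw [isSelfAdjoint_iff, ← toC_star, hb])
    rw [← toC_smul, ← toC_add] at h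
    exact h
  linear n S hS hS2 x hx y hy c := by
    have h0 : (0 : Matrix (Fin n) (Fin n) A) ∈ S := by
      have h := (hS2 x hx x hx (-1)).1
      simpa using h
    have hz : ofC Φ (0 : CStarMatrix (Fin n) (Fin n) B) = 0 := by
      ext i j
      simp [ofC]
    let S' : NonUnitalStarSubalgebra ℂ (CStarMatrix (Fin n) (Fin n) B) :=
      { carrier := {y | ofC Φ y ∈ S}
        add_mem' := by
          intro u v hu hv
          have h := (hS2 _ hu _ hv 1).1
          rw [one_smul, ← ofC_add] at h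
          exact h
        zero_mem' := by
          show ofC Φ 0 ∈ S
          rw [hz]; exact h0
        mul_mem' := by
          intro u v hu hv
          have h := (hS2 _ hu _ hv 1).2.1
          rw [← ofC_mul] at h
          exact h
        smul_mem' := by
          intro c u hu
          have h := (hS2 _ hu _ h0 c).1
          rw [add_zero, ← ofC_smul] at h
          exact h
        star_mem' := by
          intro u hu
          have h := (hS2 _ hu _ hu 1).2.2.1
          rw [← ofC_star] at h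
          exact h }
    have h := τ.linear n S' (hS.preimage (continuous_ofC Φ))
      (by
        intro u hu v hv
        have h := (hS2 _ hu _ hv 1).2.2.2
        have h2 := congrArg (toC Φ) h
        rwa [toC_mul, toC_mul, toC_ofC, toC_ofC] at h2)
      (toC Φ x) (by show ofC Φ (toC Φ x) ∈ S; rw [ofC_toC]; exact hx)
      (toC Φ y) (by show ofC Φ (toC Φ y) ∈ S; rw [ofC_toC]; exact hy) c
    rw [← toC_smul, ← toC_add] at h
    exact h
  compat n x y h1 h2 := by
    have e : toC Φ y = RC.corner (toC Φ x) := by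
      ext i j
      simp only [toC, RC.corner, CStarMatrix.ofMatrix_apply]
      by_cases hij : (i : ℕ) < n ∧ (j : ℕ) < n
      · rw [dif_pos hij, ← h1 ⟨i, hij.1⟩ ⟨j, hij.2⟩]
        rfl
      · rw [dif_neg hij]
        have : i = Fin.last n ∨ j = Fin.last n := by
          by_contra hcon
          push Not at hcon
          exact hij ⟨Fin.val_lt_last hcon.1, Fin.val_lt_last hcon.2⟩
        rcases this with hi | hj
        · rw [hi, (h2 j).2, map_zero]
        · rw [hj, (h2 i).1, map_zero]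
    show τ.toFun (n + 1) (toC Φ y) = τ.toFun n (toC Φ x)
    rw [e]
    exact τ.compat n _
  normalized := by
    show τ.toFun 1 (toC Φ 1) = 1
    rw [toC_one]
    exact τ.normalized

theorem toC_nonneg {n : ℕ} {a : Matrix (Fin n) (Fin n) A} (ha : Pos a) : 0 ≤ toC Φ a := by
  obtain ⟨x, hx⟩ := ha
  rw [hx, toC_mul, toC_star]
  exact star_mul_self_nonneg _

theorem dimFn_eq (τ : RC.QuasiTrace B) {n : ℕ} {a : Matrix (Fin n) (Fin n) A} {d : ℝ}
    (h : IsDim (fun (n : ℕ) (x : Matrix (Fin n) (Fin n) A) => τ.toFun n (toC Φ x)) a d) :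
    RC.dimFn τ (toC Φ a) = d := by
  obtain ⟨c, hc, hl⟩ := h
  have hroot : ∀ k : ℕ, RC.rpowC (toC Φ a) (1 / ((k + 1 : ℕ) : ℝ)) = toC Φ (c k) := by
    intro k
    have hpos : 0 ≤ toC Φ (c k) := toC_nonneg Φ (hc k).1
    have h := rpowC_pow (toC Φ (c k)) hpos k
    rw [← toC_pow, (hc k).2] at h
    exact h
  have ht : Tendsto (fun k : ℕ => (τ.toFun n (RC.rpowC (toC Φ a) (1 / (k : ℝ)))).re) atTop
      (𝓝 d) := by
    rw [← tendsto_add_atTop_iff_nat 1]
    refine hl.congr fun k => ?_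
    rw [hroot k]
  exact ht.limUnder_eq

include Φ in
theorem rc_le : rc A ≤ RC.rc B := by
  unfold rc RC.rc
  refine sInf_le_sInf ?_
  rintro r ⟨s, rfl, hs⟩
  refine ⟨s, rfl, fun n a b ha hb hτ => ?_⟩
  have key := hs n (toC Φ a) (toC Φ b) (toC_nonneg Φ ha) (toC_nonneg Φ hb) (fun τ => by
    obtain ⟨d, d', hd, hd', hlt⟩ := hτ _ (isQuasiTrace_comp Φ τ)
    rw [dimFn_eq Φ τ hd, dimFn_eq Φ τ hd']
    exact hlt)
  have hmem : toC Φ a ∈ closure (Set.range fun v : CStarMatrix (Fin n) (Fin n) B =>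
      v * toC Φ b * star v) := by
    rw [Metric.mem_closure_iff]
    intro ε hε
    obtain ⟨v, hv⟩ := key ε hε
    exact ⟨_, ⟨v, rfl⟩, by rw [dist_comm, dist_eq_norm]; exact hv⟩
  have h2 := image_closure_subset_closure_image (continuous_ofC Φ) ⟨_, hmem, rfl⟩
  rw [ofC_toC] at h2
  refine closure_mono ?_ h2
  rintro _ ⟨_, ⟨v, rfl⟩, rfl⟩
  exact ⟨ofC Φ v, by simp only [ofC_mul, ofC_star, ofC_toC]⟩

end transfer

end Pool.Agent.H27.RCS
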