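import Mathlib

/-!
Definitions for MP_c00d13_an: Cuntz comparison, quasitraces, the radius of comparison, the crossed
product of a homeomorphism, mean dimension.

`M_n(A)` is `Matrix (Fin n) (Fin n) A` with matrix multiplication, `star` = conjugate transpose, and
the topology of entrywise convergence, which is the norm topology of the C*-algebra `M_n(A)`.
-/

set_option autoImplicit false

open Filter Topology
open scoped ENNReal NNReal

noncomputable section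

namespace Pool.Agent.H27.RCS

/-! ## Cuntz comparison and the radius of comparison of a unital C*-algebra -/

section comparison

variable {A : Type} [CStarAlgebra A] {n : ℕ}

/-- Positive elements of `M_n(A)`: the elements `x* x`. -/
def Pos (a : Matrix (Fin n) (Fin n) A) : Prop :=
  ∃ x : Matrix (Fin n) (Fin n) A, a = star x * x

/-- Cuntz subequivalence `a ≾ b` in `M_n(A)`: `a` is a limit of elements `v b v*`. -/
def CuntzLE (a b : Matrix (Fin n) (Fin n) A) : Prop :=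
  a ∈ closure (Set.range fun v : Matrix (Fin n) (Fin n) A => v * b * star v)

/-- A normalised 2-quasitrace on `A`, given together with its (unique) extension to all matrix
algebras `M_n(A)`: on each `M_n(A)` it satisfies `0 ≤ τ(x*x) = τ(xx*)`, `τ(a+ib) = τ(a) + iτ(b)`
for self-adjoint `a`, `b`, and it is linear on commutative C*-subalgebras; `τ(x ⊕ 0) = τ(x)`;
`τ(1) = 1`. -/
structure IsQuasiTrace (τ : (n : ℕ) → Matrix (Fin n) (Fin n) A → ℂ) : Prop where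
  nonneg : ∀ (n : ℕ) (x : Matrix (Fin n) (Fin n) A),
    0 ≤ (τ n (star x * x)).re ∧ (τ n (star x * x)).im = 0
  tracial : ∀ (n : ℕ) (x : Matrix (Fin n) (Fin n) A), τ n (star x * x) = τ n (x * star x)
  add_I : ∀ (n : ℕ) (a b : Matrix (Fin n) (Fin n) A), star a = a → star b = b →
    τ n (a + Complex.I • b) = τ n a + Complex.I * τ n b
  linear : ∀ (n : ℕ) (S : Set (Matrix (Fin n) (Fin n) A)), IsClosed S →
    (∀ x ∈ S, ∀ y ∈ S, ∀ c : ℂ, c • x + y ∈ S ∧ x * y ∈ S ∧ star x ∈ S ∧ x * y = y * x) →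
    ∀ x ∈ S, ∀ y ∈ S, ∀ c : ℂ, τ n (c • x + y) = c * τ n x + τ n y
  compat : ∀ (n : ℕ) (x : Matrix (Fin n) (Fin n) A) (y : Matrix (Fin (n + 1)) (Fin (n + 1)) A),
    (∀ i j : Fin n, y i.castSucc j.castSucc = x i j) →
    (∀ i : Fin (n + 1), y i (Fin.last n) = 0 ∧ y (Fin.last n) i = 0) → τ (n + 1) y = τ n x
  normalized : τ 1 1 = 1

/-- `d_τ(a) = lim_k τ(a^{1/k}) = d` for a positive element `a` of `M_n(A)`; `c k` is the positive
root `a^{1/(k+1)}`. -/
def IsDim (τ : (n : ℕ) → Matrix (Fin n) (Fin n) A → ℂ) (a : Matrix (Fin n) (Fin n) A) (d : ℝ) :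
    Prop :=
  ∃ c : ℕ → Matrix (Fin n) (Fin n) A, (∀ k : ℕ, Pos (c k) ∧ c k ^ (k + 1) = a) ∧
    Tendsto (fun k : ℕ => (τ n (c k)).re) atTop (𝓝 d)

variable (A)

/-- The radius of comparison of `A`: the infimum of all `r ≥ 0` such that for all positive `a`, `b`
in some `M_n(A)`, `d_τ(a) + r < d_τ(b)` for every `τ ∈ QT(A)` implies `a ≾ b`. -/
def rc : ℝ≥0∞ :=
  sInf {r : ℝ≥0∞ | ∃ s : ℝ≥0, r = s ∧ ∀ (n : ℕ) (a b : Matrix (Fin n) (Fin n) A), Pos a → Pos b →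
    (∀ τ : (n : ℕ) → Matrix (Fin n) (Fin n) A → ℂ, IsQuasiTrace τ →
      ∃ d d' : ℝ, IsDim τ a d ∧ IsDim τ b d' ∧ d + s < d') → CuntzLE a b}

end comparison

/-! ## The crossed product `C*(ℤ, X, h)` -/

section crossed

/-- `A` is (isomorphic, by `ρ`, to) the C*-algebra generated by the subset `G` of `B`. -/
def IsGeneratedBy (A B : Type) [CStarAlgebra A] [CStarAlgebra B] (G : Set B) : Prop :=
  ∃ ρ : A →⋆ₐ[ℂ] B, Function.Injective ρ ∧
    Set.range ρ = closure (StarAlgebra.adjoin ℂ G : Set B)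

variable {X : Type} [TopologicalSpace X] (h : X ≃ₜ X) (A : Type) [CStarAlgebra A]
  (H : Type) [NormedAddCommGroup H] [InnerProductSpace ℂ H] [CompleteSpace H]

/-- For an orthonormal basis `e(n, x)` of `H`: the multiplication operators
`M_f e(n, x) = f(hⁿx) e(n, x)`, `f ∈ C(X)`, and the unitary `u e(n, x) = e(n + 1, x)`, which
satisfies `u M_f u* = M_{f ∘ h⁻¹}` (the regular representation on `ℓ²(ℤ × X)`). -/
def gens (e : ℤ → X → H) : Set (H →L[ℂ] H) :=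
  {T | (∃ f : C(X, ℂ), ∀ (n : ℤ) (x : X), T (e n x) = f ((h ^ n) x) • e n x) ∨
    ∀ (n : ℤ) (x : X), T (e n x) = e (n + 1) x}

/-- `H` has an orthonormal basis `e(n, x)`, `n ∈ ℤ`, `x ∈ X`, and `A` is (isomorphic to) the
C*-algebra of operators on `H` generated by `gens`. -/
def IsRegular : Prop :=
  ∃ e : ℤ → X → H, Orthonormal ℂ (fun p : ℤ × X => e p.1 p.2) ∧
    Dense (Submodule.span ℂ {ξ : H | ∃ (n : ℤ) (x : X), ξ = e n x} : Set H) ∧
    IsGeneratedBy A (H →L[ℂ] H) (gens h H e)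

/-- `A` is (isomorphic to) the crossed product `C*(ℤ, X, h) = C(X) ⋊ ℤ` (the reduced crossed
product, which is the full one because `ℤ` is amenable). -/
def IsCrossedProduct : Prop :=
  ∃ (H : Type) (_ : NormedAddCommGroup H) (_ : InnerProductSpace ℂ H) (_ : CompleteSpace H),
    IsRegular h A H

end crossed

/-! ## Mean dimension -/

section mdim

variable {X : Type} [TopologicalSpace X]

/-- Finite open covers. -/
def IsFinOpenCover (𝒰 : Set (Set X)) : Prop :=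
  𝒰.Finite ∧ (∀ U ∈ 𝒰, IsOpen U) ∧ ⋃₀ 𝒰 = Set.univ

/-- `𝒱` refines `𝒰`. -/
def Refines (𝒱 𝒰 : Set (Set X)) : Prop := ∀ V ∈ 𝒱, ∃ U ∈ 𝒰, V ⊆ U

/-- The order of `𝒱` is at most `d`: no point lies in more than `d + 1` members of `𝒱`. -/
def OrderLE (𝒱 : Set (Set X)) (d : ℕ) : Prop := ∀ x : X, {V ∈ 𝒱 | x ∈ V}.encard ≤ d + 1

/-- `D(𝒰)`, the least order of a finite open cover refining `𝒰`. -/
def Dcov (𝒰 : Set (Set X)) : ℕ :=
  sInf {d : ℕ | ∃ 𝒱 : Set (Set X), IsFinOpenCover 𝒱 ∧ Refines 𝒱 𝒰 ∧ OrderLE 𝒱 d}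

/-- The cover `𝒰 ∨ h⁻¹𝒰 ∨ ⋯ ∨ h^{-(n-1)}𝒰`. -/
def joinIter (h : X ≃ₜ X) (𝒰 : Set (Set X)) (n : ℕ) : Set (Set X) :=
  {W | ∃ U : Fin n → Set X, (∀ i, U i ∈ 𝒰) ∧ W = {x | ∀ i : Fin n, (h ^ (i : ℕ)) x ∈ U i}}

/-- The mean dimension `sup_𝒰 lim_n D(𝒰 ∨ ⋯ ∨ h^{-(n-1)}𝒰) / n`
(the limit exists by subadditivity). -/
def mdim (h : X ≃ₜ X) : ℝ≥0∞ :=
  ⨆ (𝒰 : Set (Set X)) (_ : IsFinOpenCover 𝒰),
    liminf (fun n : ℕ => (Dcov (joinIter h 𝒰 n) : ℝ≥0∞) / (n : ℝ≥0∞)) atTop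

/-- A homeomorphism is minimal if every orbit `{kⁿ y : n ∈ ℤ}` is dense. -/
def IsMinimalHomeo (k : X ≃ₜ X) : Prop :=
  ∀ y : X, Dense (Set.range fun n : ℤ => (k ^ n) y)

end mdim

end Pool.Agent.H27.RCS
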