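import Pool.Agent.H27.RCS.Conv
import Pool.Agent.H27.RC.Pub2

/-!
Every algebra with `IsCrossedProduct h A` is `*`-isomorphic to the concrete crossed product
`RC.Crossed h`, and such algebras exist.
-/

set_option autoImplicit false
set_option linter.unusedSectionVars false

open Filter Topology
open scoped ENNReal NNReal

noncomputable section

namespace Pool.Agent.H27.RCS

/-! ## The algebra generated by a set of operators -/

section gen

variable {A B : Type} [CStarAlgebra A] [CStarAlgebra B] (G : Set B) (φ : A →⋆ₐ[ℂ] B)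
  (hi : Function.Injective φ)
  (hr : Set.range φ = closure (StarAlgebra.adjoin ℂ G : Set B))

include hr in
theorem mem_gen (a : A) : φ a ∈ (StarAlgebra.adjoin ℂ G).topologicalClosure := by
  rw [← SetLike.mem_coe, StarSubalgebra.topologicalClosure_coe, ← hr]
  exact ⟨a, rfl⟩

/-- `φ`, as a map to the generated algebra -/
def toGen (a : A) : RC.Pub.Gen B G := ⟨φ a, mem_gen G φ hr a⟩

include hi in
theorem toGen_bijective : Function.Bijective (toGen G φ hr) := by
  constructor
  · intro a b hab
    exact hi (congrArg Subtype.val hab)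
  · rintro ⟨y, hy⟩
    have hy2 : y ∈ Set.range φ := by
      rw [hr, ← StarSubalgebra.topologicalClosure_coe]
      exact hy
    obtain ⟨a, ha⟩ := hy2
    exact ⟨a, Subtype.ext ha⟩

/-- the `*`-isomorphism of `A` with the generated algebra -/
def genEquiv : A ≃⋆ₐ[ℂ] RC.Pub.Gen B G :=
  { Equiv.ofBijective _ (toGen_bijective G φ hi hr) with
    map_mul' := fun a b => Subtype.ext (map_mul φ a b)
    map_add' := fun a b => Subtype.ext (map_add φ a b)
    map_star' := fun a => Subtype.ext (map_star φ a)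
    map_smul' := fun c a => Subtype.ext (map_smul φ c a) }

include hi hr in
theorem rc_le_amb : rc A ≤ RC.ambRc B G := by
  unfold RC.ambRc
  let _ : PartialOrder (RC.Pub.Gen B G) := CStarAlgebra.spectralOrder (RC.Pub.Gen B G)
  let _ : StarOrderedRing (RC.Pub.Gen B G) := CStarAlgebra.spectralOrderedRing (RC.Pub.Gen B G)
  exact rc_le (genEquiv G φ hi hr)

end gen

/-! ## The Hilbert space `ℓ²(ℤ × X)` -/

section hilbert

open Classical

variable {X : Type}

/-- the standard basis of `ℓ²(ℤ × X)` -/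
def stdB (X : Type) : HilbertBasis (ℤ × X) ℂ (RC.L2 X) :=
  HilbertBasis.ofRepr (LinearIsometryEquiv.refl ℂ (RC.L2 X))

theorem coord_eq (ξ : RC.L2 X) (p : ℤ × X) : ξ p = inner ℂ (stdB X p) ξ := by
  have h := (stdB X).repr_apply_apply ξ p
  exact h

theorem coord_std (p q : ℤ × X) : (stdB X p : RC.L2 X) q = if p = q then 1 else 0 := by
  rw [coord_eq, orthonormal_iff_ite.mp (stdB X).orthonormal q p]
  by_cases hpq : q = p
  · simp [hpq]
  · simp [hpq, Ne.symm hpq]

theorem dense_std : Dense (Submodule.span ℂ (Set.range (stdB X)) : Set (RC.L2 X)) := by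
  rw [dense_iff_closure_eq, ← Submodule.topologicalClosure_coe, (stdB X).dense_span]
  rfl

theorem coord_map (T : RC.L2 X →L[ℂ] RC.L2 X) (σ : ℤ × X → ℤ × X) (hσ : Function.Injective σ)
    (g : ℤ × X → ℂ) (hT : ∀ p, T (stdB X p) = g p • stdB X (σ p)) (ξ : RC.L2 X) (p : ℤ × X) :
    (T ξ) (σ p) = g p * ξ p := by
  have key : (innerSL ℂ (stdB X (σ p))).comp T = g p • innerSL ℂ (stdB X p) := by
    refine ContinuousLinearMap.ext_on dense_std ?_
    rintro _ ⟨q, rfl⟩
    have h1 := orthonormal_iff_ite.mp (stdB X).orthonormal (σ p) (σ q)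
    have h2 := orthonormal_iff_ite.mp (stdB X).orthonormal p q
    show inner ℂ (stdB X (σ p)) (T (stdB X q)) = g p • inner ℂ (stdB X p) (stdB X q)
    rw [hT, inner_smul_right, h1, h2]
    by_cases hpq : p = q
    · simp [hpq]
    · have : ¬ σ p = σ q := fun h => hpq (hσ h)
      simp [hpq, this]
  have h3 := congrArg (fun F : RC.L2 X →L[ℂ] ℂ => F ξ) key
  rw [coord_eq (T ξ), coord_eq ξ]
  exact h3

variable [TopologicalSpace X] (h : X ≃ₜ X)

theorem gens_std : gens h (RC.L2 X) (fun n x => stdB X (n, x)) = RC.crossedGen h := by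
  ext T
  constructor
  · rintro (⟨f, hf⟩ | hT)
    · left
      refine ⟨f, fun ξ n x => ?_⟩
      exact coord_map T id Function.injective_id (fun p => f ((h ^ p.1) p.2))
        (fun p => hf p.1 p.2) ξ (n, x)
    · right
      intro ξ n x
      have hσ : Function.Injective (fun p : ℤ × X => (p.1 + 1, p.2)) := by
        rintro ⟨a, b⟩ ⟨c, d⟩ hh
        simp only [Prod.mk.injEq, add_left_inj] at hh
        exact Prod.ext hh.1 hh.2
      have h1 := coord_map T (fun p => (p.1 + 1, p.2)) hσ (fun _ => 1)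
        (fun p => by rw [one_smul]; exact hT p.1 p.2) ξ (n - 1, x)
      simpa using h1
  · rintro (⟨f, hf⟩ | hT)
    · left
      refine ⟨f, fun n x => ?_⟩
      apply lp.ext
      funext q
      obtain ⟨m, y⟩ := q
      rw [hf]
      show _ = f ((h ^ n) x) * (stdB X (n, x) : RC.L2 X) (m, y)
      rw [coord_std]
      by_cases hq : (n, x) = (m, y)
      · obtain ⟨rfl, rfl⟩ := Prod.mk.inj hq
        rfl
      · simp [hq]
    · right
      intro n x
      apply lp.ext
      funext q
      obtain ⟨m, y⟩ := q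
      rw [hT, coord_std, coord_std]
      have : ((n, x) = (m - 1, y)) ↔ ((n + 1, x) = (m, y)) := by
        simp only [Prod.mk.injEq]
        constructor
        · rintro ⟨h1, h2⟩; exact ⟨by omega, h2⟩
        · rintro ⟨h1, h2⟩; exact ⟨by omega, h2⟩
      simp only [this]

section general

variable {H : Type} [NormedAddCommGroup H] [InnerProductSpace ℂ H] [CompleteSpace H]
  (b : HilbertBasis (ℤ × X) ℂ H)

theorem repr_b (p : ℤ × X) : b.repr (b p) = stdB X p := by
  have h1 := b.repr_self p
  have h2 := (stdB X).repr_self p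
  rw [h1, ← h2]
  rfl

theorem repr_symm_b (p : ℤ × X) : b.repr.symm (stdB X p) = b p := by
  rw [← repr_b b, LinearIsometryEquiv.symm_apply_apply]

theorem image_gens : b.repr.conjStarAlgEquiv '' gens h H (fun n x => b (n, x)) =
    gens h (RC.L2 X) (fun n x => stdB X (n, x)) := by
  ext S
  constructor
  · rintro ⟨T, hT, rfl⟩
    rcases hT with ⟨f, hf⟩ | hT
    · left
      refine ⟨f, fun n x => ?_⟩
      rw [LinearIsometryEquiv.conjStarAlgEquiv_apply_apply, repr_symm_b, hf, map_smul, repr_b]
    · right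
      intro n x
      rw [LinearIsometryEquiv.conjStarAlgEquiv_apply_apply, repr_symm_b, hT, repr_b]
  · intro hS
    refine ⟨b.repr.conjStarAlgEquiv.symm S, ?_, StarAlgEquiv.apply_symm_apply _ _⟩
    rcases hS with ⟨f, hf⟩ | hS
    · left
      refine ⟨f, fun n x => ?_⟩
      rw [LinearIsometryEquiv.symm_conjStarAlgEquiv_apply_apply, repr_b, hf, map_smul,
        repr_symm_b]
    · right
      intro n x
      rw [LinearIsometryEquiv.symm_conjStarAlgEquiv_apply_apply, repr_b, hS, repr_symm_b]

end general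

end hilbert

/-! ## The two statements -/

section final

variable {X : Type} [TopologicalSpace X] (h : X ≃ₜ X)

/-- The radius of comparison of any crossed product is at most that of the concrete one. -/
theorem rc_le_crossed (A : Type) [CStarAlgebra A] (hA : IsCrossedProduct h A) :
    rc A ≤ RC.rc (RC.Crossed h) := by
  obtain ⟨H, i1, i2, i3, e, ho, hd, ρ, hi, hr⟩ := hA
  have hset : {ξ : H | ∃ (n : ℤ) (x : X), ξ = e n x} =
      Set.range (fun p : ℤ × X => e p.1 p.2) := by
    ext ξ
    constructor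
    · rintro ⟨n, x, rfl⟩; exact ⟨(n, x), rfl⟩
    · rintro ⟨p, rfl⟩; exact ⟨p.1, p.2, rfl⟩
  rw [hset] at hd
  have hsp : ⊤ ≤ (Submodule.span ℂ (Set.range (fun p : ℤ × X => e p.1 p.2))).topologicalClosure := by
    intro v _
    exact hd v
  have hb : ∀ p : ℤ × X, HilbertBasis.mk ho hsp p = e p.1 p.2 := fun p => by
    rw [HilbertBasis.coe_mk]
  have he : e = fun n x => HilbertBasis.mk ho hsp (n, x) := by
    funext n x
    rw [hb]
  let C := (HilbertBasis.mk ho hsp).repr.conjStarAlgEquiv
  let φ : A →⋆ₐ[ℂ] (RC.L2 X →L[ℂ] RC.L2 X) :=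
    (C : (H →L[ℂ] H) →⋆ₐ[ℂ] (RC.L2 X →L[ℂ] RC.L2 X)).comp ρ
  have hφi : Function.Injective φ := fun a b hab => hi (C.injective hab)
  have himg : C '' gens h H e = RC.crossedGen h := by
    have h1 := image_gens h (HilbertBasis.mk ho hsp)
    rw [gens_std, ← he] at h1
    exact h1
  have hemb : IsClosedEmbedding C := (StarAlgEquiv.isometry C).isClosedEmbedding
  have hφr : Set.range φ = closure
      (StarAlgebra.adjoin ℂ (RC.crossedGen h) : Set (RC.L2 X →L[ℂ] RC.L2 X)) := by
    have h1 : Set.range φ = C '' Set.range ρ := by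
      rw [← Set.range_comp]; rfl
    have h2 := StarAlgHom.map_adjoin (C : (H →L[ℂ] H) →⋆ₐ[ℂ] (RC.L2 X →L[ℂ] RC.L2 X))
      (gens h H e)
    have h3 : C '' (StarAlgebra.adjoin ℂ (gens h H e) : Set (H →L[ℂ] H)) =
        (StarAlgebra.adjoin ℂ (RC.crossedGen h) : Set (RC.L2 X →L[ℂ] RC.L2 X)) := by
      rw [← himg]
      exact congrArg (fun S : StarSubalgebra ℂ (RC.L2 X →L[ℂ] RC.L2 X) =>
        (S : Set (RC.L2 X →L[ℂ] RC.L2 X))) h2
    rw [h1, hr, ← hemb.closure_image_eq, h3]
  have hle := rc_le_amb (RC.crossedGen h) φ hφi hφr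
  rw [RC.step2rc h]
  exact hle

/-- The inclusion of the concrete crossed product. -/
def incl : RC.Pub.Gen (RC.L2 X →L[ℂ] RC.L2 X) (RC.crossedGen h) →⋆ₐ[ℂ]
    (RC.L2 X →L[ℂ] RC.L2 X) where
  toFun a := a.1
  map_one' := rfl
  map_mul' _ _ := rfl
  map_zero' := rfl
  map_add' _ _ := rfl
  commutes' _ := rfl
  map_star' _ := rfl

theorem exists_crossed : ∃ (A : Type) (_ : CStarAlgebra A), IsCrossedProduct h A := by
  refine ⟨RC.Pub.Gen (RC.L2 X →L[ℂ] RC.L2 X) (RC.crossedGen h), inferInstance, RC.L2 X,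
    inferInstance, inferInstance, inferInstance, fun n x => stdB X (n, x),
    (stdB X).orthonormal, ?_, incl h, Subtype.val_injective, ?_⟩
  · have hset : {ξ : RC.L2 X | ∃ (n : ℤ) (x : X), ξ = stdB X (n, x)} = Set.range (stdB X) := by
      ext ξ
      constructor
      · rintro ⟨n, x, rfl⟩; exact ⟨(n, x), rfl⟩
      · rintro ⟨p, rfl⟩; exact ⟨p.1, p.2, rfl⟩
    rw [hset]
    exact dense_std
  · rw [gens_std]
    rw [← StarSubalgebra.topologicalClosure_coe]
    exact Subtype.range_val

end final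

end Pool.Agent.H27.RCS
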