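import Mathlib
import Pool.Agent.H27.RC.Fin
import Pool.Agent.H27.RC.Pub2
import Pool.Agent.H27.RC.Asm3
import Pool.Agent.H27.RC.Win
import Pool.Agent.H12.RC.COMB
import Pool.Agent.H16.RC.SZ
import Pool.Agent.H24.RC.Q3
import Pool.Agent.H30.RC.BLK
import Pool.Agent.H36.RC.Gen
import Pool.Agent.H42.RC.Q1
import Pool.Agent.H42.RC.R1
import Pool.Agent.H44.RC.OSC
import Pool.Agent.H44.RC.Q2
import Pool.Agent.H44.RC.R2
import Pool.Agent.H53.RC.COS
import Pool.Agent.H56.RC.CNT
import Pool.Agent.H56.RC.NV
import Pool.Agent.H68.RC.URP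
import Pool.Agent.H82.RC.VOL
import Pool.Agent.H87.RC.LA
import Pool.Agent.H87.RC.MK
import Pool.Agent.H90.RC.MB
import Pool.Agent.H27.RCS.Iso

/-!
# MP_c00d13_an: the radius of comparison is at most half the mean dimension

Let `h` be a homeomorphism of a compact metrizable space `X` such that `(X, h)` has a factor
`(Y, k)` with `Y` infinite and `k` minimal. Then `rc(C*(ℤ, X, h)) ≤ mdim(h) / 2`.

Outline of the proof. Let `a`, `b` be positive elements of `M_n(C*(ℤ, X, h))` with
`d_τ(a) + r < d_τ(b)` for all quasitraces `τ`, where `2 r > mdim(h)`.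

* By compactness of the space of invariant states, the hypothesis gives a uniform inequality
  between averages along orbits (`Q3`), which by a Szegő type theorem (`SZ`) turns into an
  inequality between the ranks of spectral subspaces of the windows of length `ℓ` of `a` and `b`,
  with a gap larger than `r ℓ`.
* By the definition of the mean dimension, up to a small perturbation these windows factor through
  a simplicial complex of dimension less than `2 r ℓ` (`NV`, `OSC`). By a volume estimate (`VOL`,
  `GEN`) there is one matrix `z` which is bounded below from all the spectral subspaces of the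
  windows of `a` to those of the windows of `b` (this is where the factor `1/2` comes from).
* The factor gives the marker property (`MK`), a continuous Rokhlin tower with small remainder
  (`URP`), block operators along the tower (`BLK`), and a comparison of the remainder with the tower
  (`COMB`, `COS`, `CNT`); the assembly is in `Pool.Agent.H27.RC.Asm3`.
-/

set_option autoImplicit false

open Pool.Agent.H27.RC

namespace Pool.Agent.H27.RCS

theorem mdim_eq {X : Type} [TopologicalSpace X] (h : X ≃ₜ X) :
    mdim h = Pool.Agent.H27.RC.mdim h := rfl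

/-- The theorem for the concrete crossed product. -/
theorem concrete (X : Type) [TopologicalSpace X] [CompactSpace X]
    [TopologicalSpace.MetrizableSpace X] (h : X ≃ₜ X)
    (Y : Type) [TopologicalSpace Y] [CompactSpace Y] [TopologicalSpace.MetrizableSpace Y]
    [Infinite Y] (k : Y ≃ₜ Y) (hk : Pool.Agent.H27.RC.IsMinimalHomeo k)
    (g : X → Y) (hg : Continuous g) (hgs : Function.Surjective g) (hgh : ∀ x, g (h x) = k (g x)) :
    Pool.Agent.H27.RC.rc (Crossed h) ≤ Pool.Agent.H27.RC.mdim h / 2 := by
  have hMB := Pool.Agent.H90.RC.mb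
  have hLA := Pool.Agent.H87.RC.la
  have hR1 := Pool.Agent.H42.RC.r1
  exact main_of Pool.Agent.H87.RC.mk (Pool.Agent.H44.RC.r2 hR1) hMB Pool.Agent.H42.RC.q1
    (Pool.Agent.H44.RC.q2 hR1) (Pool.Agent.H24.RC.q3 hMB)
    (asm (winModule hMB hLA (Pool.Agent.H36.RC.gen Pool.Agent.H82.RC.vol hLA)
        (Pool.Agent.H16.RC.sz hMB) Pool.Agent.H56.RC.nv Pool.Agent.H44.RC.osc)
      Pool.Agent.H68.RC.urp (Pool.Agent.H53.RC.cos hMB Pool.Agent.H12.RC.comb)
      Pool.Agent.H56.RC.cnt (Pool.Agent.H30.RC.blk hMB) hMB hLA)
    X h Y k g hk hg hgs hgh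

/-- The theorem. -/
theorem main (X : Type) [TopologicalSpace X] [CompactSpace X]
    [TopologicalSpace.MetrizableSpace X] (h : X ≃ₜ X)
    (Y : Type) [TopologicalSpace Y] [CompactSpace Y] [TopologicalSpace.MetrizableSpace Y]
    [Infinite Y] (k : Y ≃ₜ Y) (hk : IsMinimalHomeo k)
    (g : X → Y) (hg : Continuous g) (hgs : Function.Surjective g) (hgh : ∀ x, g (h x) = k (g x)) :
    (∃ (A : Type) (_ : CStarAlgebra A), IsCrossedProduct h A) ∧
      ∀ (A : Type) [CStarAlgebra A], IsCrossedProduct h A → rc A ≤ mdim h / 2 :=
  ⟨exists_crossed h, fun A _ hA =>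
    (rc_le_crossed h A hA).trans (concrete X h Y k hk g hg hgs hgh)⟩

end Pool.Agent.H27.RCS
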